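import Mathlib

/-!
# Extensions of simple `Z*`-algebras are `Z*`-algebras

If `0 → B → A → C → 0` is a short exact sequence of C*-algebras, `B` is a `Z*`-algebra and `C` is a
simple `Z*`-algebra, then `A` is a `Z*`-algebra.
-/

open Set Filter Topology
open scoped CStarAlgebra

namespace Pool.Agent.Results.MP_6f16c7_an.ExtensionZStar

/-- `a` is a (left or right) zero divisor of the C*-algebra `A`. -/
def IsZeroDivisor {A : Type*} [NonUnitalCStarAlgebra A] (a : A) : Prop :=
  ∃ b : A, b ≠ 0 ∧ (a * b = 0 ∨ b * a = 0)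

/-- `A` is a `Z*`-algebra: every positive element of `A` is a zero divisor in `A`. -/
def IsZStarAlgebra (A : Type*) [NonUnitalCStarAlgebra A] [PartialOrder A] [StarOrderedRing A] :
    Prop :=
  ∀ a : A, 0 ≤ a → IsZeroDivisor a

/-- `A` is simple: it is nonzero and its only closed two-sided ideals are `0` and `A`. -/
def IsSimpleCStar (A : Type*) [NonUnitalCStarAlgebra A] : Prop :=
  (∃ a : A, a ≠ 0) ∧
    ∀ I : Submodule ℂ A, IsClosed (I : Set A) →
      (∀ x ∈ I, ∀ a : A, a * x ∈ I ∧ x * a ∈ I) → I = ⊥ ∨ I = ⊤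

section countable

variable {B : Type*} [NonUnitalCStarAlgebra B] [PartialOrder B] [StarOrderedRing B]

/-- In a `Z*`-algebra every sequence has a common nonzero right annihilator. -/
theorem exists_common_annihilator (hB : IsZStarAlgebra B) (e : ℕ → B) :
    ∃ y : B, y ≠ 0 ∧ ∀ n, e n * y = 0 := by
  set t : ℕ → ℝ := fun n => (1 / 2 : ℝ) ^ n * (1 + ‖e n‖)⁻¹ with ht
  have htpos : ∀ n, 0 < t n := fun n => by positivity
  set w : ℕ → B := fun n => ((t n : ℝ) : ℂ) • e n with hw
  set f : ℕ → B := fun n => star (w n) * w n with hf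
  have hfnn : ∀ n, 0 ≤ f n := fun n => star_mul_self_nonneg (w n)
  have hwn : ∀ n, ‖w n‖ ≤ (1 / 2 : ℝ) ^ n := by
    intro n
    simp only [hw, norm_smul, Complex.norm_real]
    rw [Real.norm_of_nonneg (htpos n).le, ht]
    simp only
    have h2 : 0 < 1 + ‖e n‖ := by positivity
    rw [mul_assoc]
    have h3 : (1 + ‖e n‖)⁻¹ * ‖e n‖ ≤ 1 := by
      rw [inv_mul_le_iff₀ h2]
      linarith [norm_nonneg (e n)]
    calc (1 / 2 : ℝ) ^ n * ((1 + ‖e n‖)⁻¹ * ‖e n‖)
        ≤ (1 / 2 : ℝ) ^ n * 1 := by gcongr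
      _ = (1 / 2 : ℝ) ^ n := mul_one _
  have hsum : Summable f := by
    apply Summable.of_norm_bounded (g := fun n => (1 / 2 : ℝ) ^ n)
      (summable_geometric_of_lt_one (by norm_num) (by norm_num))
    intro n
    simp only [hf, CStarRing.norm_star_mul_self]
    have h1 : (1 / 2 : ℝ) ^ n ≤ 1 := pow_le_one₀ (by norm_num) (by norm_num)
    have h2 := hwn n
    have h3 := norm_nonneg (w n)
    nlinarith
  set a : B := ∑' n, f n with ha
  have hann : 0 ≤ a := tsum_nonneg hfnn
  have hle : ∀ n, f n ≤ a := fun n => hsum.le_tsum n (fun m _ => hfnn m)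
  obtain ⟨y, hy0, hy⟩ : ∃ y : B, y ≠ 0 ∧ a * y = 0 := by
    obtain ⟨b, hb0, hb | hb⟩ := hB a hann
    · exact ⟨b, hb0, hb⟩
    · refine ⟨star b, by simpa using hb0, ?_⟩
      have hsa : star a = a := (IsSelfAdjoint.of_nonneg hann).star_eq
      have := congrArg star hb
      rw [star_mul, hsa, star_zero] at this
      exact this
  refine ⟨y, hy0, fun n => ?_⟩
  have h1 : star y * f n * y ≤ 0 := by
    have := star_left_conjugate_le_conjugate (hle n) y
    rwa [mul_assoc (star y) a y, hy, mul_zero] at this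
  have h2 : 0 ≤ star y * f n * y := star_left_conjugate_nonneg (hfnn n) y
  have h3 : star y * f n * y = 0 := le_antisymm h1 h2
  have h4 : star y * f n * y = star (w n * y) * (w n * y) := by
    simp only [hf, star_mul, mul_assoc]
  rw [h4, CStarRing.star_mul_self_eq_zero_iff] at h3
  rw [hw] at h3
  simp only [smul_mul_assoc, smul_eq_zero] at h3
  rcases h3 with h3 | h3
  · exact absurd (by exact_mod_cast h3) (htpos n).ne'
  · exact h3

/-- In a `Z*`-algebra every countable set has a common nonzero right annihilator. -/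
theorem exists_common_annihilator_set (hB : IsZStarAlgebra B) (s : Set B) (hs : s.Countable) :
    ∃ y : B, y ≠ 0 ∧ ∀ e ∈ s, e * y = 0 := by
  obtain ⟨f, hf⟩ := (hs.insert (0 : B)).exists_eq_range (insert_nonempty 0 s)
  obtain ⟨y, hy0, hy⟩ := exists_common_annihilator hB f
  refine ⟨y, hy0, fun e he => ?_⟩
  have : e ∈ range f := hf ▸ mem_insert_of_mem _ he
  obtain ⟨n, rfl⟩ := this
  exact hy n

end countable

section ideal

variable {B A C : Type*} [NonUnitalCStarAlgebra B] [NonUnitalCStarAlgebra A]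
  [NonUnitalCStarAlgebra C]

/-- The elements of `A` which are killed (on the right) by everything in `B` killed by a suitable
countable subset of `B`. -/
def supp (ι : B →⋆ₙₐ[ℂ] A) : Submodule ℂ A where
  carrier := {x | ∃ s : Set B, s.Countable ∧ ∀ y : B, (∀ e ∈ s, e * y = 0) → x * ι y = 0}
  zero_mem' := ⟨∅, countable_empty, fun y _ => zero_mul _⟩
  add_mem' := by
    rintro x x' ⟨s, hs, h⟩ ⟨s', hs', h'⟩
    refine ⟨s ∪ s', hs.union hs', fun y hy => ?_⟩
    rw [add_mul, h y (fun e he => hy e (Or.inl he)), h' y (fun e he => hy e (Or.inr he)), add_zero]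
  smul_mem' := by
    rintro c x ⟨s, hs, h⟩
    refine ⟨s, hs, fun y hy => ?_⟩
    rw [smul_mul_assoc, h y hy, smul_zero]

theorem mem_supp {ι : B →⋆ₙₐ[ℂ] A} {x : A} :
    x ∈ supp ι ↔ ∃ s : Set B, s.Countable ∧ ∀ y : B, (∀ e ∈ s, e * y = 0) → x * ι y = 0 :=
  Iff.rfl

theorem mul_left_mem_supp {ι : B →⋆ₙₐ[ℂ] A} {x : A} (hx : x ∈ supp ι) (a : A) :
    a * x ∈ supp ι := by
  obtain ⟨s, hs, h⟩ := hx
  exact ⟨s, hs, fun y hy => by rw [mul_assoc, h y hy, mul_zero]⟩

theorem isClosed_supp (ι : B →⋆ₙₐ[ℂ] A) : IsClosed (supp ι : Set A) := by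
  apply isClosed_of_closure_subset
  intro x hx
  obtain ⟨u, hu, hlim⟩ := mem_closure_iff_seq_limit.mp hx
  choose s hs h using fun n => mem_supp.mp (hu n)
  refine mem_supp.mpr ⟨⋃ n, s n, countable_iUnion hs, fun y hy => ?_⟩
  have h0 : ∀ n, u n * ι y = 0 := fun n => h n y (fun e he => hy e (mem_iUnion.mpr ⟨n, he⟩))
  have h1 : Tendsto (fun n => u n * ι y) atTop (𝓝 (x * ι y)) := hlim.mul_const _
  simp only [h0] at h1
  exact (tendsto_nhds_unique h1 tendsto_const_nhds)

end ideal

/-- **Extensions.** Let `0 → B → A → C → 0` be a short exact sequence of (not necessarily unital)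
C*-algebras, with `B` a `Z*`-algebra and `C` a simple `Z*`-algebra. Then `A` is a `Z*`-algebra. -/
theorem result {B A C : Type*}
    [NonUnitalCStarAlgebra B] [PartialOrder B] [StarOrderedRing B]
    [NonUnitalCStarAlgebra A] [PartialOrder A] [StarOrderedRing A]
    [NonUnitalCStarAlgebra C] [PartialOrder C] [StarOrderedRing C]
    (ι : B →⋆ₙₐ[ℂ] A) (π : A →⋆ₙₐ[ℂ] C)
    (hι : Function.Injective ι) (hπ : Function.Surjective π)
    (hexact : ∀ a : A, π a = 0 ↔ a ∈ Set.range ι)
    (hB : IsZStarAlgebra B) (hCsimple : IsSimpleCStar C) (hC : IsZStarAlgebra C) :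
    IsZStarAlgebra A := by
  -- `ι B` is an ideal of `A`
  have hright : ∀ (b : B) (a : A), ∃ b' : B, ι b' = ι b * a := by
    intro b a
    have : ι b * a ∈ Set.range ι := by
      rw [← hexact, map_mul, (hexact (ι b)).mpr ⟨b, rfl⟩, zero_mul]
    exact this
  have hleft : ∀ (b : B) (a : A), ∃ b' : B, ι b' = a * ι b := by
    intro b a
    have : a * ι b ∈ Set.range ι := by
      rw [← hexact, map_mul, (hexact (ι b)).mpr ⟨b, rfl⟩, mul_zero]
    exact this
  -- `supp ι` is stable under right multiplication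
  have hmulright : ∀ x ∈ supp ι, ∀ a : A, x * a ∈ supp ι := by
    rintro x ⟨s, hs, h⟩ a
    choose f hf using fun b => hright b a
    refine ⟨f '' s, hs.image f, fun y hy => ?_⟩
    obtain ⟨y', hy'⟩ := hleft y a
    rw [mul_assoc, ← hy']
    apply h
    intro e he
    apply hι
    rw [map_mul, hy', ← mul_assoc, ← hf e, ← map_mul, hy (f e) ⟨e, he, rfl⟩]
  -- `ι B` is contained in `supp ι`
  have hsub : ∀ b : B, ι b ∈ supp ι := by
    intro b
    refine ⟨{b}, countable_singleton b, fun y hy => ?_⟩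
    rw [← map_mul, hy b rfl, map_zero]
  have hker : ∀ a : A, π a = 0 → a ∈ supp ι := by
    intro a ha
    obtain ⟨b, rfl⟩ := (hexact a).mp ha
    exact hsub b
  -- the image of `supp ι` in `C`
  let πL : A →L[ℂ] C := (π : A →ₗ[ℂ] C).mkContinuous 1
    (fun a => by rw [one_mul]; exact NonUnitalStarAlgHom.norm_apply_le π a)
  have hopen : IsOpenMap πL := πL.isOpenMap (fun c => hπ c)
  let I : Submodule ℂ C := (supp ι).map (πL : A →ₗ[ℂ] C)
  have hImem : ∀ a : A, π a ∈ I ↔ a ∈ supp ι := by
    intro a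
    constructor
    · rintro ⟨x, hx, hxa⟩
      have h1 : π x = π a := hxa
      have h2 : a - x ∈ supp ι := hker _ (by rw [map_sub, h1, sub_self])
      have : a = (a - x) + x := by abel
      rw [this]
      exact (supp ι).add_mem h2 hx
    · intro ha
      exact ⟨a, ha, rfl⟩
  have hIclosed : IsClosed (I : Set C) := by
    have h1 : (I : Set C)ᶜ = πL '' ((supp ι : Set A)ᶜ) := by
      ext c
      constructor
      · intro hc
        obtain ⟨a, rfl⟩ := hπ c
        exact ⟨a, fun ha => hc ((hImem a).mpr ha), rfl⟩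
      · rintro ⟨a, ha, rfl⟩ hc
        exact ha ((hImem a).mp hc)
    rw [← isOpen_compl_iff, h1]
    exact hopen _ (isClosed_supp ι).isOpen_compl
  have hIideal : ∀ x ∈ I, ∀ c : C, c * x ∈ I ∧ x * c ∈ I := by
    intro x hx c
    obtain ⟨a, rfl⟩ := hπ x
    obtain ⟨z, rfl⟩ := hπ c
    have ha := (hImem a).mp hx
    rw [← map_mul, ← map_mul, hImem, hImem]
    exact ⟨mul_left_mem_supp ha z, hmulright a ha z⟩
  intro a ha
  rcases hCsimple.2 I hIclosed hIideal with hI | hI
  · -- `supp ι = ι B`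
    have hmem : ∀ x : A, x ∈ supp ι → π x = 0 := by
      intro x hx
      have := (hImem x).mpr hx
      rwa [hI, Submodule.mem_bot] at this
    -- the image of `a` is a zero divisor of `C`
    obtain ⟨c, hc0, hc⟩ : ∃ c : C, c ≠ 0 ∧ π a * c = 0 := by
      have hπa : 0 ≤ π a := by
        rw [StarOrderedRing.nonneg_iff] at ha
        rw [StarOrderedRing.nonneg_iff]
        induction ha using AddSubmonoid.closure_induction with
        | mem x hx =>
          obtain ⟨s, rfl⟩ := hx
          apply AddSubmonoid.subset_closure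
          exact ⟨π s, by simp [map_star]⟩
        | zero => rw [map_zero]; exact AddSubmonoid.zero_mem _
        | add x y _ _ hx hy => rw [map_add]; exact AddSubmonoid.add_mem _ hx hy
      obtain ⟨b, hb0, hb | hb⟩ := hC (π a) hπa
      · exact ⟨b, hb0, hb⟩
      · refine ⟨star b, by simpa using hb0, ?_⟩
        have hsa : star (π a) = π a := (IsSelfAdjoint.of_nonneg hπa).star_eq
        have := congrArg star hb
        rw [star_mul, hsa, star_zero] at this
        exact this
    obtain ⟨x, rfl⟩ := hπ c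
    obtain ⟨b, hb⟩ := (hexact (a * x)).mp (by rw [map_mul, hc])
    by_contra hcon
    apply hc0
    apply hmem
    refine ⟨{b}, countable_singleton b, fun y hy => ?_⟩
    by_contra hxy
    refine hcon ⟨x * ι y, hxy, Or.inl ?_⟩
    rw [← mul_assoc, ← hb, ← map_mul, hy b rfl, map_zero]
  · -- `supp ι = A`
    have hmem : a ∈ supp ι := by
      rw [← hImem, hI]
      exact Submodule.mem_top
    obtain ⟨s, hs, h⟩ := hmem
    obtain ⟨y, hy0, hy⟩ := exists_common_annihilator_set hB s hs
    refine ⟨ι y, ?_, Or.inl (h y hy)⟩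
    intro h0
    apply hy0
    apply hι
    rw [h0, map_zero]

end Pool.Agent.Results.MP_6f16c7_an.ExtensionZStar
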